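import Pool.Agent.Lib.helper32.Tau2

set_option autoImplicit false

namespace Pool.Agent.Results.MP_b17faa_gt.Collapse

open Set Pool.Agent.Lib.helper32.Tau

theorem result (X : Set ℝ) (A : Set (Set X) → Prop)
    (hA : A ∈ ({Ga, Ta, Om} : Set (Set (Set X) → Prop))) (h : S1 A Ta) : S1 A Ga := by
  rcases hA with rfl | rfl | rfl
  exacts [sg_s1 (sg_of h), s1_ga (fun _ h _ => h) h, s1_ga (fun _ _ h => h) h]

end Pool.Agent.Results.MP_b17faa_gt.Collapse
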