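import Pool.Agent.Lib.helper32.TowerS

set_option autoImplicit false

namespace Pool.Agent.Results.MP_b17faa_gt.FinCH

open Set Pool.Agent.Lib.helper32.Tau

theorem result (hCH : Cardinal.continuum.{0} = Cardinal.aleph 1) :
    ∃ X : Set ℝ, Sfin (Z := X) Om Ta ∧ ¬ Ufin (Z := X) Ga Ga := by
  obtain ⟨X, C, h1, h2⟩ := ex hCH
  exact ⟨X, h2.sfin, h1.nhur⟩

end Pool.Agent.Results.MP_b17faa_gt.FinCH
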