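import Pool.Agent.Lib.helper32.Sier2

set_option autoImplicit false

namespace Pool.Agent.Results.MP_b17faa_gt.SierOmega

open Set Pool.Agent.Lib.helper32.Tau

theorem result (hCH : Cardinal.continuum.{0} = Cardinal.aleph 1) :
    ∃ X : Set ℝ, S1 (Z := X) Ta Ga ∧ ¬ Sfin (Z := X) Om Om :=
  (exs hCH).imp fun _ h => ⟨h.1, fun c => h.2.2 (sq_of c)⟩

end Pool.Agent.Results.MP_b17faa_gt.SierOmega
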